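import Mathlib

namespace Pool.Agent.H.MP_898d8d_co
open Module Submodule
set_option linter.unusedSectionVars false

variable {K : Type*} [Field K] {Q : Type*} [Fintype Q] [DecidableEq Q]

def Ad (M : ℕ) (F : ℕ → Submodule K (Q → K)) (c : Basis Q K (Q → K)) (β : Q → ℕ) : Prop :=
  (∀ y, β y ≤ M) ∧ ∀ s, 1 ≤ s → s ≤ M → F s = span K (c '' {y | s ≤ β y})

lemma exch_span (c : Q → (Q → K)) (A : Finset Q) (a : Q → K) (y0 : Q) (h0 : y0 ∈ A)
    (ha : a y0 ≠ 0) (S : Set Q) (hS : ∀ y ∈ A, y ∈ S) :
    span K (Function.update c y0 (∑ y ∈ A, a y • c y) '' S) = span K (c '' S) := by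
  apply le_antisymm
  · rw [span_le]
    rintro _ ⟨y, hy, rfl⟩
    by_cases h : y = y0
    · subst h
      rw [Function.update_self]
      exact sum_mem fun z hz => smul_mem _ _ (subset_span ⟨z, hS z hz, rfl⟩)
    · rw [Function.update_of_ne h]
      exact subset_span ⟨y, hy, rfl⟩
  · rw [span_le]
    rintro _ ⟨y, hy, rfl⟩
    have hne : ∀ z, z ∈ S → z ≠ y0 →
        c z ∈ span K (Function.update c y0 (∑ y ∈ A, a y • c y) '' S) := fun z hz h =>
      subset_span ⟨z, hz, Function.update_of_ne h _ _⟩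
    by_cases h : y = y0
    · subst h
      have h1 : (∑ z ∈ A, a z • c z) ∈ span K (Function.update c y (∑ y ∈ A, a y • c y) '' S) :=
        subset_span ⟨y, hy, Function.update_self _ _ _⟩
      have h2 : (∑ z ∈ A.erase y, a z • c z) ∈
          span K (Function.update c y (∑ y ∈ A, a y • c y) '' S) :=
        sum_mem fun z hz => smul_mem _ _
          (hne z (hS z (Finset.mem_of_mem_erase hz)) (Finset.ne_of_mem_erase hz))
      have h3 : c y = (a y)⁻¹ • ((∑ z ∈ A, a z • c z) - ∑ z ∈ A.erase y, a z • c z) := by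
        rw [← Finset.add_sum_erase A _ h0, add_sub_cancel_right, smul_smul, inv_mul_cancel₀ ha,
          one_smul]
      have h4 := smul_mem _ (a y)⁻¹ (sub_mem h1 h2)
      rw [← h3] at h4
      exact h4
    · exact hne y hy h

open Classical in
noncomputable def val (M : ℕ) (G : ℕ → Submodule K (Q → K)) (u : Q → K) : ℕ :=
  Nat.findGreatest (fun s => u ∈ G s) M

lemma val_le (M : ℕ) (G : ℕ → Submodule K (Q → K)) (u : Q → K) : val M G u ≤ M := by
  classical
  unfold val
  exact Nat.findGreatest_le M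

lemma le_val {M : ℕ} {G : ℕ → Submodule K (Q → K)} {u : Q → K} {s : ℕ} (hs : s ≤ M)
    (hu : u ∈ G s) : s ≤ val M G u := by
  classical
  unfold val
  exact Nat.le_findGreatest hs hu

lemma mem_of_le_val {M : ℕ} {G : ℕ → Submodule K (Q → K)} (hG : Antitone G) {u : Q → K} {s : ℕ}
    (h1 : 1 ≤ s) (hs : s ≤ val M G u) : u ∈ G s := by
  classical
  have h : val M G u ≠ 0 := by omega
  have h2 : u ∈ G (val M G u) := by
    unfold val at h ⊢
    exact Nat.findGreatest_of_ne_zero rfl h
  exact hG hs h2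

lemma common_aux (M : ℕ) (F G : ℕ → Submodule K (Q → K)) (hG : Antitone G) (β : Q → ℕ) (n : ℕ) :
    ∀ c : Basis Q K (Q → K), Ad M F c β → M * Fintype.card Q - ∑ y, val M G (c y) = n →
      ∃ (c' : Basis Q K (Q → K)) (β' : Q → ℕ), Ad M F c' β ∧ Ad M G c' β' := by
  induction n using Nat.strong_induction_on with | _ n ih => ?_
  intro c hc hn
  by_cases hA : ∀ s, 1 ≤ s → s ≤ M → ∀ u ∈ G s, ∀ y, val M G (c y) < s → c.repr u y = 0
  · refine ⟨c, fun y => val M G (c y), hc, fun y => val_le _ _ _, fun s h1 h2 => ?_⟩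
    apply le_antisymm
    · intro u hu
      rw [Basis.mem_span_image]
      intro y hy
      by_contra h
      exact (Finsupp.mem_support_iff.mp hy) (hA s h1 h2 u hu y (by simpa using h))
    · rw [span_le]
      rintro _ ⟨y, hy, rfl⟩
      exact mem_of_le_val hG h1 hy
  · push Not at hA
    obtain ⟨s, h1, h2, u, hu, y1, hy1, hy2⟩ := hA
    classical
    set A : Finset Q := Finset.univ.filter fun y => val M G (c y) < s ∧ c.repr u y ≠ 0 with hAdef
    obtain ⟨y0, h0, hmin⟩ := A.exists_min_image β ⟨y1, by simp [hAdef, hy1, hy2]⟩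
    have h0' : val M G (c y0) < s ∧ c.repr u y0 ≠ 0 := by simpa [hAdef] using h0
    set u' : Q → K := ∑ y ∈ A, c.repr u y • c y with hu'
    have hu'G : u' ∈ G s := by
      have e1 : u = u' + ∑ y ∈ Aᶜ, c.repr u y • c y := by
        rw [hu', Finset.sum_add_sum_compl, c.sum_repr]
      have e2 : (∑ y ∈ Aᶜ, c.repr u y • c y) ∈ G s := by
        refine sum_mem fun y hy => ?_
        by_cases h : c.repr u y = 0
        · rw [h, zero_smul]; exact zero_mem _
        · have : ¬ val M G (c y) < s := by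
            intro h'
            exact (Finset.mem_compl.mp hy) (by simp [hAdef, h, h'])
          exact smul_mem _ _ (mem_of_le_val hG h1 (not_lt.mp this))
      have e3 : u' = u - ∑ y ∈ Aᶜ, c.repr u y • c y := by
        rw [eq_sub_iff_add_eq]; exact e1.symm
      rw [e3]; exact sub_mem hu e2
    have hsp : ⊤ ≤ span K (Set.range (Function.update (⇑c) y0 u')) := by
      rw [← Set.image_univ, hu', exch_span c A (fun y => c.repr u y) y0 h0 h0'.2 Set.univ
        (fun _ _ => trivial), Set.image_univ, c.span_eq]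
    let c' : Basis Q K (Q → K) := basisOfTopLeSpanOfCardEqFinrank _ hsp (by simp)
    have hc' : ⇑c' = Function.update (⇑c) y0 u' := coe_basisOfTopLeSpanOfCardEqFinrank _ _ _
    have hlt : ∑ y, val M G (c y) < ∑ y, val M G (c' y) := by
      apply Finset.sum_lt_sum
      · intro y _
        by_cases h : y = y0
        · subst h
          rw [hc', Function.update_self]
          have := le_val h2 hu'G
          omega
        · rw [hc', Function.update_of_ne h]
      · refine ⟨y0, Finset.mem_univ _, ?_⟩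
        rw [hc', Function.update_self]
        have := le_val h2 hu'G
        omega
    have hle : ∑ y, val M G (c' y) ≤ M * Fintype.card Q := by
      calc ∑ y, val M G (c' y) ≤ ∑ _y : Q, M := Finset.sum_le_sum fun y _ => val_le _ _ _
        _ = _ := by simp [mul_comm]
    refine ih _ (by omega) c' ⟨hc.1, fun s' h1' h2' => ?_⟩ rfl
    rw [hc.2 s' h1' h2', hc']
    by_cases h : s' ≤ β y0
    · rw [hu', exch_span c A (fun y => c.repr u y) y0 h0 h0'.2 {y | s' ≤ β y}
        (fun y hy => le_trans h (hmin y hy))]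
    · congr 1
      apply Set.image_congr
      intro y hy
      have : y ≠ y0 := by rintro rfl; exact h hy
      rw [Function.update_of_ne this]

lemma common (M : ℕ) (F G : ℕ → Submodule K (Q → K)) (hF : Antitone F) (hG : Antitone G) :
    ∃ (c : Basis Q K (Q → K)) (β β' : Q → ℕ), Ad M F c β ∧ Ad M G c β' := by
  have h0 : Ad M (fun _ => (⊥ : Submodule K (Q → K))) (Pi.basisFun K Q) (fun _ => 0) := by
    refine ⟨fun _ => Nat.zero_le _, fun s h1 _ => ?_⟩
    have : {y : Q | s ≤ 0} = ∅ := by ext y; simp; omega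
    simp only [this, Set.image_empty, span_empty]
  obtain ⟨c, β, -, h1⟩ := common_aux M _ F hF _ _ _ h0 rfl
  obtain ⟨c', β', h2, h3⟩ := common_aux M F G hG β _ c h1 rfl
  exact ⟨c', β, β', h2, h3⟩

noncomputable def cost (M : ℕ) (F : ℕ → Submodule K (Q → K)) : ℕ :=
  ∑ s ∈ Finset.range M, (2 * s + 1) * finrank K (F (s + 1))

lemma sum_odd (b : ℕ) : ∑ s ∈ Finset.range b, (2 * s + 1) = b ^ 2 := by
  induction b with
  | zero => simp
  | succ b ih => rw [Finset.sum_range_succ, ih]; ring

lemma sum_odd' (M b : ℕ) (h : b ≤ M) :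
    ∑ s ∈ Finset.range M, (if s + 1 ≤ b then 2 * s + 1 else 0) = b ^ 2 := by
  rw [← Finset.sum_filter, ← sum_odd]
  congr 1
  ext s
  simp; omega

lemma cost_eq {M : ℕ} {F : ℕ → Submodule K (Q → K)} {c : Basis Q K (Q → K)} {β : Q → ℕ}
    (h : Ad M F c β) : cost M F = ∑ y, β y ^ 2 := by
  classical
  have h1 : ∀ s ∈ Finset.range M, (2 * s + 1) * finrank K (F (s + 1)) =
      ∑ y, (if s + 1 ≤ β y then 2 * s + 1 else 0) := by
    intro s hs
    have hs' := Finset.mem_range.mp hs
    rw [h.2 (s + 1) (by omega) (by omega)]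
    have e : c '' {y | s + 1 ≤ β y} =
        Set.range (⇑c ∘ (Subtype.val : {y // s + 1 ≤ β y} → Q)) := by
      ext u; simp
    rw [e, finrank_span_eq_card (c.linearIndependent.comp _ Subtype.val_injective),
      ← Finset.sum_filter, Fintype.card_subtype]
    simp [mul_comm]
  unfold cost
  rw [Finset.sum_congr rfl h1, Finset.sum_comm]
  exact Finset.sum_congr rfl fun y _ => sum_odd' M _ (h.1 y)

lemma cost_ge {M t : ℕ} {F : ℕ → Submodule K (Q → K)} (hF : Antitone F) (ht : t ≤ M) :
    t ^ 2 * finrank K (F t) ≤ cost M F := by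
  unfold cost
  rw [← sum_odd' M t ht, Finset.sum_mul]
  refine Finset.sum_le_sum fun s _ => ?_
  split_ifs with h
  · exact Nat.mul_le_mul_left _ (Submodule.finrank_mono (hF h))
  · simp

lemma cost_map_le (M : ℕ) (F : ℕ → Submodule K (Q → K)) (p : (Q → K) →ₗ[K] (Q → K)) :
    cost M (fun s => (F s).map p) ≤ cost M F :=
  Finset.sum_le_sum fun s _ => Nat.mul_le_mul_left _ (Submodule.finrank_map_le _ _)

lemma cost_map_add {M t : ℕ} {F : ℕ → Submodule K (Q → K)} (hF : Antitone F) (ht : t ≤ M)
    (p : (Q → K) →ₗ[K] (Q → K)) (e : Q → K) (he : e ≠ 0) (hp : p e = 0) (hm : e ∈ F t) :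
    cost M (fun s => (F s).map p) + t ^ 2 ≤ cost M F := by
  unfold cost
  rw [← sum_odd' M t ht, ← Finset.sum_add_distrib]
  refine Finset.sum_le_sum fun s _ => ?_
  split_ifs with h
  · have hm' : e ∈ F (s + 1) := hF h hm
    have h1 := LinearMap.finrank_range_add_finrank_ker (p.domRestrict (F (s + 1)))
    rw [LinearMap.range_domRestrict] at h1
    have h2 : 0 < finrank K (LinearMap.ker (p.domRestrict (F (s + 1)))) := by
      rw [Nat.pos_iff_ne_zero]
      intro h0
      rw [Submodule.finrank_eq_zero] at h0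
      have h3 : (⟨e, hm'⟩ : F (s + 1)) ∈ LinearMap.ker (p.domRestrict (F (s + 1))) := by
        simpa using hp
      rw [h0, Submodule.mem_bot] at h3
      exact he (congrArg Subtype.val h3)
    nlinarith
  · simpa using Submodule.finrank_map_le _ _

end Pool.Agent.H.MP_898d8d_co
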