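import Pool.Agent.H.MP_898d8d_co.A

namespace Pool.Agent.H.MP_898d8d_co
open Module Submodule
set_option linter.unusedSectionVars false

variable {K : Type*} [Field K] {Q : Type*} [Fintype Q] [DecidableEq Q]
variable {ι : Type*} [Fintype ι] [DecidableEq ι]

def pr (w : ι → Q → K) : (ι → Q) → K := fun x => ∏ i, w i (x i)

def Fs (M : ℕ) (F : ι → ℕ → Submodule K (Q → K)) : Submodule K ((ι → Q) → K) :=
  span K {T | ∃ (w : ι → Q → K) (s : ι → ℕ), T = pr w ∧ (∀ i, s i ≤ M) ∧
    (∀ i, s i = 0 ∨ w i ∈ F i (s i)) ∧ M ≤ ∑ i, s i}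

noncomputable def co (c : ι → Basis Q K (Q → K)) (y : ι → Q) : ((ι → Q) → K) →ₗ[K] K where
  toFun T := ∑ x, T x * ∏ i, (c i).repr (Pi.single (x i) 1) (y i)
  map_add' T T' := by simp [add_mul, Finset.sum_add_distrib]
  map_smul' a T := by simp [Finset.mul_sum, mul_assoc]

lemma co_pr (c : ι → Basis Q K (Q → K)) (y : ι → Q) (w : ι → Q → K) :
    co c y (pr w) = ∏ i, (c i).repr (w i) (y i) := by
  have h : ∀ i, (c i).repr (w i) (y i) = ∑ q, w i q * (c i).repr (Pi.single q 1) (y i) := by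
    intro i
    conv_lhs => rw [pi_eq_sum_univ' (w i)]
    simp [map_sum, Finsupp.finset_sum_apply]
  simp only [h]
  rw [Finset.prod_univ_sum, Fintype.piFinset_univ]
  simp [co, pr, Finset.prod_mul_distrib]

lemma expand (c : ι → Basis Q K (Q → K)) (T : (ι → Q) → K) :
    T = ∑ y, co c y T • pr (fun i => c i (y i)) := by
  funext x
  have h : ∀ (x' : ι → Q), ∑ y : ι → Q, (∏ i, (c i).repr (Pi.single (x' i) 1) (y i)) *
      ∏ i, c i (y i) (x i) = if x' = x then 1 else 0 := by
    intro x'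
    have h1 : ∀ i, ∑ q, (c i).repr (Pi.single (x' i) 1) q * c i q (x i) =
        if x' i = x i then (1 : K) else 0 := by
      intro i
      have := congrFun ((c i).sum_repr (Pi.single (x' i) 1)) (x i)
      rw [Finset.sum_apply] at this
      simpa [Pi.single_apply, eq_comm] using this
    simp only [← Finset.prod_mul_distrib]
    rw [← Fintype.piFinset_univ, ← Finset.prod_univ_sum (fun _ => Finset.univ)
      (fun i q => (c i).repr (Pi.single (x' i) 1) q * c i q (x i))]
    simp only [h1]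
    rw [Finset.prod_ite_zero]
    simp [funext_iff]
  simp only [Finset.sum_apply, Pi.smul_apply, smul_eq_mul, co, pr, LinearMap.coe_mk,
    AddHom.coe_mk, Finset.sum_mul, mul_assoc]
  rw [Finset.sum_comm]
  simp only [← Finset.mul_sum, h]
  simp

lemma co_zero {M : ℕ} {F : ι → ℕ → Submodule K (Q → K)} {c : ι → Basis Q K (Q → K)}
    {β : ι → Q → ℕ} (h : ∀ i, Ad M (F i) (c i) (β i)) {T : (ι → Q) → K} (hT : T ∈ Fs M F)
    (y : ι → Q) (hy : ∑ i, β i (y i) < M) : co c y T = 0 := by
  have : Fs M F ≤ LinearMap.ker (co c y) := by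
    unfold Fs
    rw [span_le]
    rintro _ ⟨w, s, rfl, h1, h2, h3⟩
    have : ∃ i, β i (y i) < s i := by
      by_contra hc
      push Not at hc
      have := Finset.sum_le_sum (s := Finset.univ) fun i _ => hc i
      omega
    obtain ⟨i, hi⟩ := this
    simp only [SetLike.mem_coe, LinearMap.mem_ker, co_pr]
    apply Finset.prod_eq_zero (Finset.mem_univ i)
    have h4 : w i ∈ F i (s i) := (h2 i).resolve_left (by omega)
    rw [(h i).2 _ (by omega) (h1 i), Basis.mem_span_image] at h4
    by_contra hne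
    have := h4 (Finsupp.mem_support_iff.mpr hne)
    simp at this
    omega
  exact this hT

noncomputable def tc (M : ℕ) (F : ι → ℕ → Submodule K (Q → K)) : ℕ := ∑ i, cost M (F i)

/-- strong convexity -/
lemma midpoint {M t : ℕ} {F G : ι → ℕ → Submodule K (Q → K)} (hF : ∀ i, Antitone (F i))
    (hG : ∀ i, Antitone (G i)) {T : (ι → Q) → K} (hT : T ∈ Fs M F) (hT' : T ∈ Fs M G)
    (ht1 : 1 ≤ t) (ht : 2 * t ≤ M) (i1 : ι) (hi : ¬ G i1 (2 * t) ≤ F i1 t) :
    ∃ H : ι → ℕ → Submodule K (Q → K), (∀ i, Antitone (H i)) ∧ T ∈ Fs M H ∧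
      4 * tc M H + t ^ 2 ≤ 2 * tc M F + 2 * tc M G +
        Fintype.card ι * Fintype.card Q * (4 * M + 1) := by
  choose c β β' h1 h2 using fun i => common M (F i) (G i) (hF i) (hG i)
  let γ : ι → Q → ℕ := fun i y => (β i y + β' i y + 1) / 2
  have hγ : ∀ i y, γ i y ≤ M := fun i y => by
    have := (h1 i).1 y
    have := (h2 i).1 y
    simp only [γ]; omega
  let H : ι → ℕ → Submodule K (Q → K) := fun i s => span K (c i '' {y | s ≤ γ i y})
  have hH : ∀ i, Ad M (H i) (c i) (γ i) := fun i => ⟨hγ i, fun _ _ _ => rfl⟩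
  refine ⟨H, fun i a b hab => span_mono (Set.image_mono fun y hy => le_trans hab hy), ?_, ?_⟩
  · rw [expand c T]
    refine sum_mem fun y _ => ?_
    by_cases h0 : co c y T = 0
    · rw [h0, zero_smul]; exact zero_mem _
    · refine smul_mem _ _ (subset_span ⟨_, fun i => γ i (y i), rfl, fun i => hγ i _, fun i =>
        Or.inr (subset_span ⟨y i, le_refl (γ i (y i)), rfl⟩), ?_⟩)
      have a1 : M ≤ ∑ i, β i (y i) := not_lt.mp fun hh => h0 (co_zero h1 hT y hh)
      have a2 : M ≤ ∑ i, β' i (y i) := not_lt.mp fun hh => h0 (co_zero h2 hT' y hh)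
      have a3 : ∑ i, β i (y i) + ∑ i, β' i (y i) ≤ 2 * ∑ i, γ i (y i) := by
        rw [← Finset.sum_add_distrib, Finset.mul_sum]
        exact Finset.sum_le_sum fun i _ => by simp only [γ]; omega
      show M ≤ ∑ i, γ i (y i)
      omega
  · have : ∃ y, β i1 y < t ∧ 2 * t ≤ β' i1 y := by
      by_contra hc
      push Not at hc
      apply hi
      rw [(h1 i1).2 t ht1 (by omega), (h2 i1).2 (2 * t) (by omega) ht]
      refine span_mono (Set.image_mono fun y hy => ?_)
      by_contra h'
      have := hc y (by simpa using h')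
      simp at hy
      omega
    obtain ⟨y1, hy1, hy2⟩ := this
    have key : ∀ i y, 4 * γ i y ^ 2 + (if (i, y) = (i1, y1) then t ^ 2 else 0) ≤
        2 * β i y ^ 2 + 2 * β' i y ^ 2 + (4 * M + 1) := by
      intro i y
      have b1 := (h1 i).1 y
      have b2 := (h2 i).1 y
      have b3 : 2 * γ i y ≤ β i y + β' i y + 1 := by simp only [γ]; omega
      have b4 : 4 * γ i y ^ 2 ≤ (β i y + β' i y + 1) ^ 2 := by nlinarith
      split_ifs with h
      · obtain ⟨rfl, rfl⟩ := Prod.mk.inj h
        obtain ⟨k, hk⟩ : ∃ k, β' i y = β i y + t + k := ⟨β' i y - β i y - t, by omega⟩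
        rw [hk] at b4 b2 ⊢
        nlinarith
      · have : (0 : ℤ) ≤ ((β i y : ℤ) - β' i y) ^ 2 := sq_nonneg _
        zify at b1 b2 b4 ⊢
        nlinarith
    have s1 := Finset.sum_le_sum (s := (Finset.univ : Finset (ι × Q))) fun p _ => key p.1 p.2
    simp only [Finset.sum_add_distrib, Prod.mk.eta, Finset.sum_ite_eq', Finset.mem_univ, if_true,
      ← Finset.mul_sum, Finset.sum_const, Finset.card_univ, Fintype.card_prod, smul_eq_mul,
      Fintype.sum_prod_type] at s1
    unfold tc
    simp only [fun i => cost_eq (h1 i), fun i => cost_eq (h2 i), fun i => cost_eq (hH i)]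
    nlinarith

end Pool.Agent.H.MP_898d8d_co
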