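import Pool.Agent.H.MP_898d8d_co.B

namespace Pool.Agent.H.MP_898d8d_co
open Module Submodule Function
set_option linter.unusedSectionVars false

variable {K : Type*} [Field K] {Q : Type*} [Fintype Q] [DecidableEq Q]
variable {ι : Type*} [Fintype ι] [DecidableEq ι]

def Sl (P : ι → Submodule K (Q → K)) (I : ι → Prop) : Submodule K ((ι → Q) → K) :=
  span K {T | ∃ i, I i ∧ ∃ f ∈ P i, ∃ g : (ι → Q) → K, (∀ x q, g (update x i q) = g x) ∧
    T = fun x => f (x i) * g x}

def SL (T : (ι → Q) → K) (s : ℕ) : Prop :=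
  ∃ P : ι → Submodule K (Q → K), ∑ i, finrank K (P i) ≤ s ∧ T ∈ Sl P (fun _ => True)

lemma pr_eq (w : ι → Q → K) (i : ι) (x : ι → Q) :
    pr w x = w i (x i) * ∏ j ∈ Finset.univ.erase i, w j (x j) := by
  unfold pr
  rw [Finset.mul_prod_erase Finset.univ (fun j => w j (x j)) (Finset.mem_univ i)]

lemma pr_update (w : ι → Q → K) (i : ι) (f : Q → K) (x : ι → Q) :
    pr (update w i f) x = f (x i) * ∏ j ∈ Finset.univ.erase i, w j (x j) := by
  rw [pr_eq _ i, update_self]
  congr 1
  exact Finset.prod_congr rfl fun j hj => by rw [update_of_ne (Finset.ne_of_mem_erase hj)]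

lemma feas_of_Sl [Nonempty Q] (M : ℕ) (P : ι → Submodule K (Q → K)) :
    Sl P (fun _ => True) ≤ Fs M (fun i _ => P i) := by
  unfold Sl
  rw [span_le]
  rintro _ ⟨i, -, f, hf, g, hg, rfl⟩
  obtain ⟨q0⟩ := ‹Nonempty Q›
  have e : (fun x => f (x i) * g x) = ∑ x' ∈ Finset.univ.filter (fun x' : ι → Q => x' i = q0),
      g x' • pr (update (fun j => Pi.single (x' j) 1) i f) := by
    funext x
    rw [Finset.sum_apply, Finset.sum_eq_single (update x i q0)]
    · simp only [Pi.smul_apply, smul_eq_mul, pr_update, hg]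
      rw [Finset.prod_eq_one, mul_one, mul_comm]
      intro j hj
      rw [update_of_ne (Finset.ne_of_mem_erase hj)]
      simp
    · intro x' hx' hne
      have hx'' : x' i = q0 := by simpa using hx'
      have : ∃ j, j ≠ i ∧ x' j ≠ x j := by
        by_contra hc
        push Not at hc
        apply hne
        funext j
        by_cases h : j = i
        · subst h; simp [hx'']
        · rw [update_of_ne h, hc j h]
      obtain ⟨j, hj1, hj2⟩ := this
      simp only [Pi.smul_apply, smul_eq_mul, pr_update]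
      rw [Finset.prod_eq_zero (i := j) (by simp [hj1]) (by simp [Pi.single_apply, hj2.symm])]
      simp
    · intro h
      exact absurd (by simp) h
  rw [SetLike.mem_coe, e]
  refine sum_mem fun x' _ => smul_mem _ _ (subset_span ⟨_, Pi.single i M, rfl, fun j => ?_,
    fun j => ?_, by simp⟩)
  · by_cases h : j = i
    · subst h; simp
    · simp [h]
  · by_cases h : j = i
    · subst h; right; simpa using hf
    · left; simp [h]

lemma tc_const (M : ℕ) (P : ι → Submodule K (Q → K)) :
    tc M (fun i _ => P i) = M ^ 2 * ∑ i, finrank K (P i) := by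
  unfold tc cost
  rw [Finset.mul_sum]
  exact Finset.sum_congr rfl fun i _ => by rw [← Finset.sum_mul, sum_odd]

lemma exists_SL (i0 : ι) (T : (ι → Q) → K) : ∃ s, SL T s := by
  refine ⟨_, fun _ => ⊤, le_rfl, ?_⟩
  have e : T = ∑ q, fun x => (Pi.single q 1 : Q → K) (x i0) * T (update x i0 q) := by
    funext x
    rw [Finset.sum_apply, Finset.sum_eq_single (x i0)]
    · simp
    · intro q _ h
      simp [Pi.single_apply, h.symm]
    · simp
  rw [e]
  exact sum_mem fun q _ => subset_span ⟨i0, trivial, _, trivial, fun x => T (update x i0 q),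
    fun x q' => by simp, rfl⟩

noncomputable def gg (M : ℕ) (T : (ι → Q) → K) : ℕ :=
  sInf {n | ∃ F : ι → ℕ → Submodule K (Q → K), (∀ i, Antitone (F i)) ∧ T ∈ Fs M F ∧ tc M F = n}

lemma gg_le {M : ℕ} {T : (ι → Q) → K} {F : ι → ℕ → Submodule K (Q → K)}
    (h1 : ∀ i, Antitone (F i)) (h2 : T ∈ Fs M F) : gg M T ≤ tc M F :=
  Nat.sInf_le ⟨F, h1, h2, rfl⟩

lemma gg_le_SL [Nonempty Q] (M : ℕ) {T : (ι → Q) → K} {s : ℕ} (h : SL T s) :
    gg M T ≤ M ^ 2 * s := by
  obtain ⟨P, h1, h2⟩ := h
  refine (gg_le (fun i => antitone_const) (feas_of_Sl M P h2)).trans ?_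
  rw [tc_const]
  exact Nat.mul_le_mul_left _ h1

lemma gg_spec [Nonempty Q] (i0 : ι) (M : ℕ) (T : (ι → Q) → K) :
    ∃ F : ι → ℕ → Submodule K (Q → K), (∀ i, Antitone (F i)) ∧ T ∈ Fs M F ∧ tc M F = gg M T := by
  obtain ⟨s, P, -, h2⟩ := exists_SL i0 T
  exact Nat.sInf_mem (s := {n | ∃ F : ι → ℕ → Submodule K (Q → K), (∀ i, Antitone (F i)) ∧
    T ∈ Fs M F ∧ tc M F = n}) ⟨_, _, fun i => antitone_const, feas_of_Sl M P h2, rfl⟩

def con (i0 : ι) (ξ : (Q → K) →ₗ[K] K) : ((ι → Q) → K) →ₗ[K] ((ι → Q) → K) where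
  toFun T := fun x => ξ (fun q => T (update x i0 q))
  map_add' T T' := by
    funext x
    rw [Pi.add_apply, ← map_add]; rfl
  map_smul' a T := by
    funext x
    rw [Pi.smul_apply, RingHom.id_apply, ← map_smul]; rfl

lemma con_pr (i0 : ι) (ξ : (Q → K) →ₗ[K] K) (w : ι → Q → K) (x : ι → Q) :
    con i0 ξ (pr w) x = ξ (w i0) * ∏ j ∈ Finset.univ.erase i0, w j (x j) := by
  have : (fun q => pr w (update x i0 q)) = (∏ j ∈ Finset.univ.erase i0, w j (x j)) • w i0 := by
    funext q
    rw [pr_eq _ i0, update_self, Pi.smul_apply, smul_eq_mul, mul_comm]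
    congr 1
    exact Finset.prod_congr rfl fun j hj => by rw [update_of_ne (Finset.ne_of_mem_erase hj)]
  show ξ (fun q => pr w (update x i0 q)) = _
  rw [this, map_smul, smul_eq_mul, mul_comm]

lemma con_mem {t : ℕ} (ht : 1 ≤ t) (i0 : ι) (ξ : (Q → K) →ₗ[K] K)
    {G : ι → ℕ → Submodule K (Q → K)} (hG : ∀ i, Antitone (G i)) (hξ : ∀ u ∈ G i0 t, ξ u = 0)
    (P : ι → Submodule K (Q → K)) (hP : ∀ i, i ≠ i0 → G i (2 * t) ≤ P i) {T : (ι → Q) → K}
    (hT : T ∈ Fs ((2 * Fintype.card ι + 1) * t) G) : con i0 ξ T ∈ Sl P (· ≠ i0) := by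
  have : Fs ((2 * Fintype.card ι + 1) * t) G ≤ (Sl P (· ≠ i0)).comap (con i0 ξ) := by
    unfold Fs
    rw [span_le]
    rintro _ ⟨w, s, rfl, h1, h2, h3⟩
    rw [SetLike.mem_coe, mem_comap]
    by_cases h : t ≤ s i0
    · have : con i0 ξ (pr w) = 0 := by
        funext x
        rw [con_pr, hξ _ (hG i0 h ((h2 i0).resolve_left (by omega)))]
        simp
      rw [this]; exact zero_mem _
    · have : ∃ i, 2 * t < s i := by
        by_contra hc
        push Not at hc
        have := Finset.sum_le_sum (s := Finset.univ) fun i _ => hc i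
        simp only [Finset.sum_const, Finset.card_univ, smul_eq_mul] at this
        nlinarith
      obtain ⟨i, hi⟩ := this
      have hne : i ≠ i0 := by rintro rfl; omega
      refine subset_span ⟨i, hne, w i, hP i hne (hG i hi.le ((h2 i).resolve_left (by omega))),
        fun x => ξ (w i0) * ∏ j ∈ (Finset.univ.erase i0).erase i, w j (x j), fun x q => ?_, ?_⟩
      · show ξ (w i0) * _ = ξ (w i0) * _
        rw [Finset.prod_congr rfl fun j hj => by rw [update_of_ne (Finset.ne_of_mem_erase hj)] ]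
      · funext x
        rw [con_pr, ← Finset.mul_prod_erase _ (fun j => w j (x j)) (a := i) (by simp [hne])]
        ring
  exact this hT

def kill (j : Q) : (Q → K) →ₗ[K] (Q → K) where
  toFun u := fun q => if q = j then 0 else u q
  map_add' u v := by funext q; simp only [Pi.add_apply]; split_ifs <;> simp
  map_smul' a u := by funext q; simp

def killT (i0 : ι) (j : Q) : ((ι → Q) → K) →ₗ[K] ((ι → Q) → K) where
  toFun T := fun x => if x i0 = j then 0 else T x
  map_add' u v := by funext q; simp only [Pi.add_apply]; split_ifs <;> simp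
  map_smul' a u := by funext q; simp

lemma kill_mem {M : ℕ} (i0 : ι) (j : Q) {G : ι → ℕ → Submodule K (Q → K)} {T : (ι → Q) → K}
    (hT : T ∈ Fs M G) :
    killT i0 j T ∈ Fs M (update G i0 (fun s => (G i0 s).map (kill j))) := by
  have : Fs M G ≤ (Fs M (update G i0 (fun s => (G i0 s).map (kill j)))).comap (killT i0 j) := by
    unfold Fs
    rw [span_le]
    rintro _ ⟨w, s, rfl, h1, h2, h3⟩
    rw [SetLike.mem_coe, mem_comap]
    refine subset_span ⟨update w i0 (kill j (w i0)), s, ?_, h1, fun i => ?_, h3⟩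
    · funext x
      rw [pr_update]
      show (if x i0 = j then 0 else pr w x) = (if x i0 = j then 0 else w i0 (x i0)) * _
      split_ifs
      · simp
      · rw [pr_eq _ i0]
    · refine (h2 i).imp_right fun h => ?_
      by_cases hi : i = i0
      · subst hi
        simp only [update_self]
        exact mem_map_of_mem h
      · simpa [update_of_ne hi] using h
  exact this hT

lemma tc_update (M : ℕ) (G : ι → ℕ → Submodule K (Q → K)) (i0 : ι)
    (H : ℕ → Submodule K (Q → K)) : tc M (update G i0 H) + cost M (G i0) = tc M G + cost M H := by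
  unfold tc
  rw [← Finset.add_sum_erase _ _ (Finset.mem_univ i0),
    ← Finset.add_sum_erase _ (fun i => cost M (G i)) (Finset.mem_univ i0), update_self,
    Finset.sum_congr rfl (fun j hj => by rw [update_of_ne (Finset.ne_of_mem_erase hj)])]
  ring

def zr (i0 : ι) (J : Finset Q) (T : (ι → Q) → K) : (ι → Q) → K :=
  fun x => if x i0 ∈ J then T x else 0

def slc (i0 : ι) (T : (ι → Q) → K) (j : Q) : (ι → Q) → K := fun x => T (update x i0 j)

lemma stuck (i0 : ι) (J : Finset Q) (T : (ι → Q) → K) (P : ι → Submodule K (Q → K))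
    (h : ∀ j, slc i0 T j ∈ span K (slc i0 T '' J) ⊔ Sl P (· ≠ i0)) :
    SL T (J.card + ∑ i, finrank K (P i)) := by
  classical
  have h' : ∀ j, ∃ a : Q → K, slc i0 T j - ∑ k ∈ J, a k • slc i0 T k ∈ Sl P (· ≠ i0) := by
    intro j
    obtain ⟨u, hu, v, hv, e⟩ := mem_sup.mp (h j)
    obtain ⟨a, ha⟩ := (Submodule.mem_span_image_finset_iff_exists_fun' K).mp hu
    exact ⟨a, by rw [ha, ← e]; simpa using hv⟩
  choose a ha using h'
  let f : Q → Q → K := fun k j => a j k
  let P' := update P i0 (span K (↑(J.image f) : Set (Q → K)))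
  refine ⟨P', ?_, ?_⟩
  · rw [← Finset.add_sum_erase _ _ (Finset.mem_univ i0)]
    refine add_le_add ?_ ?_
    · have e : P' i0 = span K (↑(J.image f) : Set (Q → K)) := update_self _ _ _
      rw [e]
      exact (finrank_span_finset_le_card _).trans Finset.card_image_le
    · rw [Finset.sum_congr rfl (g := fun i => finrank K (P i))
        (fun j hj => by
          have e : P' j = P j := update_of_ne (Finset.ne_of_mem_erase hj) _ _
          rw [e])]
      exact Finset.sum_le_sum_of_subset (Finset.erase_subset _ _)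
  · have e : T = ∑ k ∈ J, (fun x => f k (x i0) * slc i0 T k x) +
        ∑ j, fun x => (if x i0 = j then 1 else 0) *
          (slc i0 T j - ∑ k ∈ J, a j k • slc i0 T k) x := by
      funext x
      simp only [Pi.add_apply, Finset.sum_apply, ite_mul, one_mul, zero_mul, Finset.sum_ite_eq,
        Finset.mem_univ, if_true, Pi.sub_apply, Pi.smul_apply, smul_eq_mul, f]
      simp [slc]
    rw [e]
    refine add_mem (sum_mem fun k hk => subset_span ⟨i0, trivial, f k, ?_, slc i0 T k,
      fun x q => by simp [slc], rfl⟩) (sum_mem fun j _ => ?_)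
    · simp only [P', update_self]
      exact subset_span (by simpa using ⟨k, hk, rfl⟩)
    · let m : ((ι → Q) → K) →ₗ[K] ((ι → Q) → K) :=
        LinearMap.mulLeft K (fun x => if x i0 = j then 1 else 0)
      have : Sl P (· ≠ i0) ≤ (Sl P' (fun _ => True)).comap m := by
        unfold Sl
        rw [span_le]
        rintro _ ⟨i, hi, f, hf, g, hg, rfl⟩
        rw [SetLike.mem_coe, mem_comap]
        refine subset_span ⟨i, trivial, f, by simpa [P', update_of_ne hi] using hf,
          fun x => (if x i0 = j then 1 else 0) * g x, fun x q => ?_, ?_⟩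
        · show (if update x i q i0 = j then 1 else 0) * g (update x i q) = _
          rw [hg, update_of_ne (Ne.symm hi)]
        · funext x
          simp only [m, LinearMap.mulLeft_apply, Pi.mul_apply]
          ring
      exact this (ha j)

lemma grow [Nonempty Q] {t : ℕ} (ht1 : 1 ≤ t)
    (ht : 2 * (Fintype.card ι * Fintype.card Q * (4 * ((2 * Fintype.card ι + 1) * t) + 1)) ≤ t ^ 2)
    (i0 : ι) (J : Finset Q) (T : (ι → Q) → K) {F : ι → ℕ → Submodule K (Q → K)}
    (hF : ∀ i, Antitone (F i)) (hT : zr i0 J T ∈ Fs ((2 * Fintype.card ι + 1) * t) F)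
    (hc : tc ((2 * Fintype.card ι + 1) * t) F = gg ((2 * Fintype.card ι + 1) * t) (zr i0 J T))
    (j : Q) (hj : slc i0 T j ∉ span K (slc i0 T '' J) ⊔ Sl (fun i => F i t) (· ≠ i0)) :
    4 * gg ((2 * Fintype.card ι + 1) * t) (zr i0 J T) + t ^ 2 ≤
      4 * gg ((2 * Fintype.card ι + 1) * t) (zr i0 (insert j J) T) := by
  have hd : 1 ≤ Fintype.card ι := Fintype.card_pos_iff.mpr ⟨i0⟩
  set M := (2 * Fintype.card ι + 1) * t with hM
  have hM2 : 2 * t ≤ M := by nlinarith
  have hjJ : j ∉ J := fun h => hj (mem_sup_left (subset_span ⟨j, h, rfl⟩))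
  obtain ⟨G, hG, hG1, hG2⟩ := gg_spec i0 M (zr i0 (insert j J) T)
  have hk : killT i0 j (zr i0 (insert j J) T) = zr i0 J T := by
    funext x
    show (if x i0 = j then 0 else zr i0 (insert j J) T x) = _
    unfold zr
    by_cases h : x i0 = j
    · simp [h, hjJ]
    · simp [h]
  have hG' := kill_mem i0 j hG1
  rw [hk] at hG'
  have hanti : ∀ i, Antitone (update G i0 (fun s => (G i0 s).map (kill j)) i) := by
    intro i
    by_cases hi : i = i0
    · subst hi
      rw [update_self]
      exact fun a b hab => map_mono (hG i hab)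
    · rw [update_of_ne hi]; exact hG i
  have hu := tc_update M G i0 (fun s => (G i0 s).map (kill j))
  by_cases he : (Pi.single j 1 : Q → K) ∈ G i0 t
  · have h1 := cost_map_add (M := M) (hG i0) (by omega) (kill j) _ (by simp) (by
      funext q
      show (if q = j then 0 else (Pi.single j 1 : Q → K) q) = 0
      split_ifs with h
      · rfl
      · simp [h]) he
    have h2 := gg_le hanti hG'
    omega
  · obtain ⟨ξ, hξ1, hξ2⟩ := Submodule.exists_dual_map_eq_bot_of_notMem he inferInstance
    have hξ : ∀ u ∈ G i0 t, ξ u = 0 := fun u hu => by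
      have : ξ u ∈ (G i0 t).map ξ := mem_map_of_mem hu
      rwa [hξ2, mem_bot] at this
    have : ∃ i, i ≠ i0 ∧ ¬ G i (2 * t) ≤ F i t := by
      by_contra hcon
      push Not at hcon
      have h1 := con_mem ht1 i0 ξ hG hξ (fun i => F i t) hcon hG1
      have h2 : con i0 ξ (zr i0 (insert j J) T) =
          ∑ k ∈ insert j J, ξ (Pi.single k 1) • slc i0 T k := by
        funext x
        show ξ (fun q => zr i0 (insert j J) T (update x i0 q)) = _
        have : (fun q => zr i0 (insert j J) T (update x i0 q)) =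
            ∑ k ∈ insert j J, slc i0 T k x • (Pi.single k 1 : Q → K) := by
          funext q
          simp only [zr, update_self, Finset.sum_apply, Pi.smul_apply, smul_eq_mul,
            Pi.single_apply, mul_ite, mul_one, mul_zero, Finset.sum_ite_eq, slc]
        rw [this, map_sum, Finset.sum_apply]
        exact Finset.sum_congr rfl fun k _ => by simp [mul_comm]
      rw [h2, Finset.sum_insert hjJ] at h1
      apply hj
      have h3 : (∑ k ∈ J, ξ (Pi.single k 1) • slc i0 T k) ∈ span K (slc i0 T '' J) :=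
        sum_mem fun k hk => smul_mem _ _ (subset_span ⟨k, hk, rfl⟩)
      have h4 := smul_mem _ (ξ (Pi.single j 1))⁻¹
        (sub_mem (mem_sup_right (S := span K (slc i0 T '' J)) h1) (mem_sup_left h3))
      rwa [add_sub_cancel_right, smul_smul, inv_mul_cancel₀ hξ1, one_smul] at h4
    obtain ⟨i, hi1, hi2⟩ := this
    obtain ⟨H, hH, hH1, hH2⟩ := midpoint hF hanti hT hG' ht1 hM2 i (by rwa [update_of_ne hi1])
    have h2 := gg_le hH hH1
    have h3 := cost_map_le M (G i0) (kill j)
    omega

theorem step [Nonempty Q] (i0 : ι) (T : (ι → Q) → K) (r : ℕ) (hr : ∀ s, SL T s → r ≤ s) :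
    ∃ J : Finset Q, J.card ≤ r ∧
      ∀ s, SL (zr i0 J T) s → r ≤ 5 * (2 * Fintype.card ι + 1) ^ 2 * s := by
  obtain ⟨t, ht1, ht⟩ : ∃ t, 1 ≤ t ∧ 2 * (Fintype.card ι * Fintype.card Q *
      (4 * ((2 * Fintype.card ι + 1) * t) + 1)) ≤ t ^ 2 := by
    generalize Fintype.card ι = d
    generalize Fintype.card Q = N
    refine ⟨2 * (d * N) * (8 * d + 5) + 1, by omega, ?_⟩
    generalize hT : 2 * (d * N) * (8 * d + 5) + 1 = t
    have h1 : 4 * ((2 * d + 1) * t) + 1 ≤ (8 * d + 5) * t := by
      have : 1 ≤ t := by omega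
      nlinarith
    calc _ ≤ 2 * (d * N * ((8 * d + 5) * t)) := by gcongr
      _ = (2 * (d * N) * (8 * d + 5)) * t := by ring
      _ ≤ t * t := Nat.mul_le_mul_right _ (by omega)
      _ = t ^ 2 := by ring
  have key : ∀ k, ∃ J : Finset Q, J.card ≤ k ∧
      (t ^ 2 * r ≤ 5 * gg ((2 * Fintype.card ι + 1) * t) (zr i0 J T) ∨
        t ^ 2 * k ≤ 4 * gg ((2 * Fintype.card ι + 1) * t) (zr i0 J T)) := by
    intro k
    induction k with
    | zero => exact ⟨∅, by simp, Or.inr (by simp)⟩
    | succ k ih =>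
      obtain ⟨J, h1, h2 | h2⟩ := ih
      · exact ⟨J, by omega, Or.inl h2⟩
      · obtain ⟨F, hF, hF1, hF2⟩ := gg_spec i0 ((2 * Fintype.card ι + 1) * t) (zr i0 J T)
        by_cases h : ∀ j, slc i0 T j ∈ span K (slc i0 T '' J) ⊔ Sl (fun i => F i t) (· ≠ i0)
        · refine ⟨J, by omega, Or.inl ?_⟩
          have h3 := hr _ (stuck i0 J T _ h)
          have h4 : t ^ 2 * ∑ i, finrank K (F i t) ≤ tc ((2 * Fintype.card ι + 1) * t) F := by
            rw [Finset.mul_sum]
            exact Finset.sum_le_sum fun i _ => cost_ge (hF i) (by nlinarith)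
          have h5 : t ^ 2 * r ≤ t ^ 2 * (k + ∑ i, finrank K (F i t)) :=
            Nat.mul_le_mul_left _ (by omega)
          rw [mul_add] at h5
          omega
        · push Not at h
          obtain ⟨j, hj⟩ := h
          refine ⟨insert j J, (Finset.card_insert_le _ _).trans (by omega), Or.inr ?_⟩
          have := grow ht1 ht i0 J T hF hF1 hF2 j hj
          rw [mul_add]
          omega
  obtain ⟨J, h1, h2⟩ := key r
  refine ⟨J, h1, fun s hs => ?_⟩
  have h3 := gg_le_SL ((2 * Fintype.card ι + 1) * t) hs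
  have h4 : t ^ 2 * r ≤ 5 * (((2 * Fintype.card ι + 1) * t) ^ 2 * s) := by omega
  refine Nat.le_of_mul_le_mul_left (h4.trans (le_of_eq (by ring))) (by positivity : 0 < t ^ 2)

end Pool.Agent.H.MP_898d8d_co
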