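import Pool.Agent.H.MP_898d8d_co.C

namespace Pool.Agent.H.MP_898d8d_co
open Module Submodule Function
set_option linter.unusedSectionVars false

variable {K : Type*} [Field K] {Q : Type*} [Fintype Q] [DecidableEq Q]
variable {ι : Type*} [Fintype ι] [DecidableEq ι]

noncomputable def sr (T : (ι → Q) → K) : ℕ := sInf {s | SL T s}

lemma sr_le {T : (ι → Q) → K} {s : ℕ} (h : SL T s) : sr T ≤ s := Nat.sInf_le h

lemma sr_spec (i0 : ι) (T : (ι → Q) → K) : SL T (sr T) :=
  Nat.sInf_mem (s := {s | SL T s}) (exists_SL i0 T)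

def zrA (A : Finset ι) (J : ι → Finset Q) (T : (ι → Q) → K) : (ι → Q) → K :=
  fun x => if ∀ i ∈ A, x i ∈ J i then T x else 0

lemma SL_zr (i0 : ι) (J : Finset Q) {T : (ι → Q) → K} {s : ℕ} (h : SL T s) :
    SL (zr i0 J T) s := by
  obtain ⟨P, h1, h2⟩ := h
  let p : (Q → K) →ₗ[K] (Q → K) := LinearMap.mulLeft K (fun q => if q ∈ J then 1 else 0)
  let m : ((ι → Q) → K) →ₗ[K] ((ι → Q) → K) :=
    LinearMap.mulLeft K (fun x => if x i0 ∈ J then 1 else 0)
  let P' := update P i0 ((P i0).map p)
  refine ⟨P', le_trans (Finset.sum_le_sum fun i _ => ?_) h1, ?_⟩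
  · by_cases hi : i = i0
    · subst hi
      have e : P' i = (P i).map p := update_self _ _ _
      rw [e]
      exact finrank_map_le _ _
    · have e : P' i = P i := update_of_ne hi _ _
      rw [e]
  · have : Sl P (fun _ => True) ≤ (Sl P' (fun _ => True)).comap m := by
      unfold Sl
      rw [span_le]
      rintro _ ⟨i, -, f, hf, g, hg, rfl⟩
      rw [SetLike.mem_coe, mem_comap]
      by_cases hi : i = i0
      · subst hi
        refine subset_span ⟨i, trivial, p f, by simpa [P'] using ⟨f, hf, rfl⟩, g, hg, ?_⟩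
        funext x
        simp only [m, p, LinearMap.mulLeft_apply, Pi.mul_apply]
        ring
      · refine subset_span ⟨i, trivial, f, by simpa [P', update_of_ne hi] using hf,
          fun x => (if x i0 ∈ J then 1 else 0) * g x, fun x q => ?_, ?_⟩
        · show (if update x i q i0 ∈ J then 1 else 0) * g (update x i q) = _
          rw [hg, update_of_ne (Ne.symm hi)]
        · funext x
          simp only [m, LinearMap.mulLeft_apply, Pi.mul_apply]
          ring
    have h3 := this h2
    have e : m T = zr i0 J T := by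
      funext x
      simp [m, zr]
    rwa [mem_comap, e] at h3

theorem iter [Nonempty Q] (T : (ι → Q) → K) (A : Finset ι) :
    ∃ J : ι → Finset Q, (∀ i ∈ A, (J i).card ≤ sr T) ∧ sr (zrA A J T) ≤ sr T ∧
      sr T ≤ (5 * (2 * Fintype.card ι + 1) ^ 2) ^ A.card * sr (zrA A J T) := by
  induction A using Finset.induction_on with
  | empty =>
    have e : zrA ∅ (fun _ => ∅) T = T := by funext x; simp [zrA]
    exact ⟨fun _ => ∅, by simp, by rw [e], by simp [e]⟩
  | insert i0 A hi ih =>
    obtain ⟨J, h1, h2, h3⟩ := ih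
    obtain ⟨J0, h4, h5⟩ := step i0 (zrA A J T) _ (fun s hs => sr_le hs)
    have e : zrA (insert i0 A) (update J i0 J0) T = zr i0 J0 (zrA A J T) := by
      funext x
      have : (∀ i ∈ A, x i ∈ update J i0 J0 i) ↔ ∀ i ∈ A, x i ∈ J i := by
        refine forall₂_congr fun i hi' => ?_
        rw [update_of_ne (by rintro rfl; exact hi hi')]
      simp only [zrA, zr, Finset.forall_mem_insert, update_self, this]
      by_cases h : x i0 ∈ J0 <;> simp [h]
    refine ⟨update J i0 J0, fun i hi' => ?_, ?_, ?_⟩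
    · by_cases h : i = i0
      · subst h; rw [update_self]; omega
      · rw [update_of_ne h]; exact h1 i ((Finset.mem_insert.mp hi').resolve_left h)
    · rw [e]
      exact (sr_le (SL_zr i0 J0 (sr_spec i0 _))).trans h2
    · rw [e, Finset.card_insert_of_notMem hi, pow_succ, mul_assoc]
      exact h3.trans (Nat.mul_le_mul_left _ (h5 _ (sr_spec i0 _)))

/-- explicit decompositions -/
def Dec {X : ι → Type*} (T : (∀ i, X i) → K) (r : ℕ) : Prop :=
  ∃ (c : Fin r → ι) (f : ∀ k, X (c k) → K) (g : ∀ k, (∀ j : {j // j ≠ c k}, X j) → K),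
    ∀ x, T x = ∑ k, f k (x (c k)) * g k (fun j => x j)

lemma Dec.pull {X Y : ι → Type*} {T : (∀ i, X i) → K} {r : ℕ} (h : Dec T r)
    (φ : ∀ i, Y i → X i) (u : ∀ i, Y i → K) :
    Dec (fun y : ∀ i, Y i => T (fun i => φ i (y i)) * ∏ i, u i (y i)) r := by
  obtain ⟨c, f, g, h⟩ := h
  refine ⟨c, fun k a => f k (φ _ a) * u _ a,
    fun k z => g k (fun j => φ j (z j)) * ∏ j : {j // j ≠ c k}, u j (z j), fun y => ?_⟩
  beta_reduce
  rw [h, Finset.sum_mul]
  refine Finset.sum_congr rfl fun k _ => ?_
  rw [Fintype.prod_eq_mul_prod_subtype_ne (fun i => u i (y i)) (c k)]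
  ring

lemma SL_of_Dec {T : (ι → Q) → K} {r : ℕ} (h : Dec (X := fun _ => Q) T r) : SL T r := by
  classical
  obtain ⟨c, f, g, h⟩ := h
  refine ⟨fun i => span K (↑((Finset.univ.filter fun k => c k = i).image f) : Set (Q → K)), ?_, ?_⟩
  · calc _ ≤ ∑ i, (Finset.univ.filter fun k => c k = i).card :=
          Finset.sum_le_sum fun i _ => (finrank_span_finset_le_card _).trans Finset.card_image_le
      _ = r := by
          rw [← Finset.card_eq_sum_card_fiberwise (f := c) (s := Finset.univ)
            (t := Finset.univ) (fun _ _ => Finset.mem_coe.mpr (Finset.mem_univ _))]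
          simp
  · have e : T = ∑ k, fun x => f k (x (c k)) * g k (fun j => x j) := by
      funext x; rw [h, Finset.sum_apply]
    rw [e]
    refine sum_mem fun k _ => subset_span ⟨c k, trivial, f k, subset_span (by
      simpa using ⟨k, rfl, rfl⟩), fun x => g k (fun j => x j), fun x q => ?_, rfl⟩
    show g k _ = g k _
    congr 1
    funext j
    exact update_of_ne j.2 _ _

lemma Dec_of_SL [Nonempty Q] {T : (ι → Q) → K} {s : ℕ} (h : SL T s) :
    ∃ r ≤ s, Dec (X := fun _ => Q) T r := by
  classical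
  obtain ⟨P, h1, h2⟩ := h
  obtain ⟨q0⟩ := ‹Nonempty Q›
  let b := fun i => Module.finBasis K (P i)
  let κ := Σ i, Fin (finrank K (P i))
  have key : ∀ T ∈ Sl P (fun _ => True), ∃ g : ∀ k : κ, (∀ _ : {j // j ≠ k.1}, Q) → K,
      ∀ x, T x = ∑ k : κ, (b k.1 k.2 : Q → K) (x k.1) * g k (fun j => x j) := by
    intro T hT
    induction hT using span_induction with
    | mem T hT =>
      obtain ⟨i, -, f, hf, g, hg, rfl⟩ := hT
      refine ⟨fun k z => if h : k.1 = i then (b k.1).repr ⟨f, h ▸ hf⟩ k.2 *
        g (fun j => if h' : j = k.1 then q0 else z ⟨j, h'⟩) else 0, fun x => ?_⟩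
      rw [Fintype.sum_sigma, Finset.sum_eq_single i]
      · have e1 : g (fun j => if h' : j = i then q0 else x j) = g x := by
          rw [← hg x q0]
          congr 1
          funext j
          by_cases h : j = i
          · subst h; simp
          · simp [h]
        have e2 := congrArg (fun z : P i => (z : Q → K) (x i)) ((b i).sum_repr ⟨f, hf⟩)
        simp only [AddSubmonoidClass.coe_finset_sum, SetLike.val_smul, Finset.sum_apply,
          Pi.smul_apply, smul_eq_mul] at e2
        simp only [dite_true, e1]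
        rw [← e2, Finset.sum_mul]
        exact Finset.sum_congr rfl fun k _ => by ring
      · intro j _ hj
        simp [hj]
      · simp
    | zero => exact ⟨fun _ _ => 0, by simp⟩
    | add T T' _ _ h h' =>
      obtain ⟨g, hg⟩ := h
      obtain ⟨g', hg'⟩ := h'
      exact ⟨fun k z => g k z + g' k z, fun x => by
        simp [hg, hg', mul_add, Finset.sum_add_distrib]⟩
    | smul a T _ h =>
      obtain ⟨g, hg⟩ := h
      exact ⟨fun k z => a * g k z, fun x => by
        simp only [Pi.smul_apply, smul_eq_mul, hg, Finset.mul_sum]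
        exact Finset.sum_congr rfl fun k _ => by ring⟩
  obtain ⟨g, hg⟩ := key T h2
  let e := (Fintype.equivFin κ).symm
  refine ⟨Fintype.card κ, by simpa [κ] using h1, fun k => (e k).1,
    fun k => (b (e k).1 (e k).2 : Q → K), fun k => g (e k), fun x => ?_⟩
  rw [hg]
  exact (Equiv.sum_comp e
    (fun k : κ => (b k.1 k.2 : Q → K) (x k.1) * g k (fun j => x j))).symm

theorem main (i0 : ι) (T : (ι → ℕ) → K) (hT : (Function.support T).Finite) (r : ℕ)
    (hr : Dec (X := fun _ => ℕ) T r) (hr' : ∀ s, Dec (X := fun _ => ℕ) T s → r ≤ s) :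
    ∃ J : ι → Finset ℕ, (∀ i, (J i).card ≤ r) ∧
      ∀ s, Dec (fun x : ∀ i, J i => T (fun i => x i)) s →
        r ≤ (5 * (2 * Fintype.card ι + 1) ^ 2) ^ Fintype.card ι * s := by
  classical
  obtain ⟨N, hN⟩ : ∃ N, ∀ x, T x ≠ 0 → ∀ i, x i < N + 1 := by
    refine ⟨hT.toFinset.sup fun x => Finset.univ.sup x, fun x hx i => Nat.lt_succ_of_le ?_⟩
    exact (Finset.le_sup (f := x) (Finset.mem_univ i)).trans
      (Finset.le_sup (f := fun x => Finset.univ.sup x) (by simpa using hx))
  let T' : (ι → Fin (N + 1)) → K := fun y => T (fun i => y i)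
  have h1 : sr T' ≤ r := by
    have := hr.pull (Y := fun _ => Fin (N + 1)) (fun _ a => a.1) (fun _ _ => 1)
    simp only [Finset.prod_const_one, mul_one] at this
    exact sr_le (SL_of_Dec this)
  have h2 : r ≤ sr T' := by
    obtain ⟨s, hs, hd⟩ := Dec_of_SL (sr_spec i0 T')
    have := hd.pull (Y := fun _ => ℕ) (fun _ a => Fin.ofNat (N + 1) a)
      (fun _ a => if a < N + 1 then 1 else 0)
    refine le_trans (hr' s ?_) hs
    convert this using 1
    funext x
    by_cases h : ∀ i, x i < N + 1
    · simp only [h, if_true, Finset.prod_const_one, mul_one, T']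
      congr 1
      funext i
      simp [Fin.ofNat, Nat.mod_eq_of_lt (h i)]
    · have h0 : T x = 0 := by
        by_contra h0
        exact h (hN x h0)
      push Not at h
      obtain ⟨i, hi⟩ := h
      rw [h0, Finset.prod_eq_zero (Finset.mem_univ i) (by simp; omega), mul_zero]
  obtain ⟨J, hJ1, -, hJ2⟩ := iter T' Finset.univ
  refine ⟨fun i => (J i).map Fin.valEmbedding, fun i => by
    simpa using (hJ1 i (Finset.mem_univ _)).trans h1, fun s hs => ?_⟩
  refine h2.trans (hJ2.trans (Nat.mul_le_mul_left _ ?_))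
  by_cases hne : ∀ i, (J i).Nonempty
  · choose a ha using hne
    have := hs.pull (Y := fun _ => Fin (N + 1))
      (fun i q => if h : q ∈ J i then ⟨q.1, by simpa using ⟨q, h, rfl⟩⟩ else
        ⟨(a i).1, by simpa using ⟨a i, ha i, rfl⟩⟩) (fun i q => if q ∈ J i then 1 else 0)
    refine sr_le (SL_of_Dec ?_)
    convert this using 1
    funext y
    by_cases h : ∀ i, y i ∈ J i
    · simp [zrA, h, T']
    · have h' := h
      push Not at h'
      obtain ⟨i, hi⟩ := h'
      rw [Finset.prod_eq_zero (Finset.mem_univ i) (by simp [hi]), mul_zero]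
      simp only [zrA, Finset.mem_univ, true_imp_iff, h, if_false]
  · push Not at hne
    obtain ⟨i, hi⟩ := hne
    refine le_trans (sr_le ⟨fun _ => ⊥, by simp, ?_⟩) (Nat.zero_le s)
    have : zrA Finset.univ J T' = 0 := by
      funext y
      have : ¬ ∀ i, y i ∈ J i := fun h => by simpa [hi] using h i
      simp only [zrA, Finset.mem_univ, true_imp_iff, this, if_false, Pi.zero_apply]
    rw [this]
    exact zero_mem _

end Pool.Agent.H.MP_898d8d_co
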